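import Mathlib

/-!
# LX-GRP: finite groups of automorphisms of a discrete valuation ring, of exponent prime to `p`

Proof of `card_le_sq` in words. Let `𝔪` be the maximal ideal of `O` and `κ = O ⧸ 𝔪`, a finite field.
An automorphism of the local ring `O` preserves `𝔪`, so `G` acts on `κ`; let `I` be the kernel of
`G → Aut κ`.

1. `Aut κ` is cyclic (`FiniteField`: the automorphisms of a finite field over its prime field form a
   cyclic group generated by the Frobenius; e.g. `FiniteField.algEquivSigma`, `IsCyclic (k ≃ₐ[ZMod p] k)`),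
   the group `G ⧸ I` embeds in it, so it is cyclic, and all its elements have order dividing `E`; so
   it has at most `E` elements.
2. Let `π` be a generator of `𝔪`. For `σ ∈ I` write `σ π = u_σ π`, `u_σ` a unit, and put
   `θ σ = u_σ mod 𝔪 ∈ κˣ`. As `σ` acts trivially on `κ`, `θ` is a homomorphism `I → κˣ`
   (`σ τ π = σ (u_τ) u_σ π`).
3. `θ` is injective. Let `θ σ = 1`, `σ ∈ I`. By induction on `i ≥ 1`: `σ x - x ∈ 𝔪 ^ i` for all `x ∈ O`.
   For `i = 1` this is `σ ∈ I`. Step: let `δ x = σ x - x ∈ 𝔪 ^ i` for all `x`, `i ≥ 1`. Then `σ` acts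
   trivially on `𝔪 ^ i / 𝔪 ^ (i + 1)`: `σ (a π ^ i) = σ a (u_σ π) ^ i` with `σ a - a ∈ 𝔪`,
   `u_σ - 1 ∈ 𝔪`. So `σ ^ n x ≡ x + n δ x mod 𝔪 ^ (i + 1)` by induction on `n`, and for `n = E` this gives
   `E δ x ∈ 𝔪 ^ (i + 1)`; `E` is a unit. So `δ x ∈ ⋂ 𝔪 ^ i = 0` and `σ = 1` by faithfulness.
4. `κˣ` is cyclic, so `I` is cyclic of exponent dividing `E`, `|I| ≤ E`, and `|G| = |I| |G ⧸ I| ≤ E ^ 2`.
-/

set_option autoImplicit false

namespace Pool.Agent.Helper87.LX

open IsLocalRing

/-- a group of exponent dividing `E` which embeds in a finite cyclic group has at most `E` elements -/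
private theorem card_le_of_cyclic16 {H C : Type*} [Group H] [Group C] [Finite C] [IsCyclic C]
    (f : H →* C) (hf : Function.Injective f) {E : ℕ} (hE0 : 0 < E) (hE : ∀ h : H, h ^ E = 1) :
    Nat.card H ≤ E := by
  classical
  have : Fintype C := Fintype.ofFinite C
  have : Finite H := Finite.of_injective f hf
  have : Fintype H := Fintype.ofFinite H
  rw [Nat.card_eq_fintype_card]
  refine le_trans ?_ (IsCyclic.card_pow_eq_one_le (α := C) hE0)
  rw [← Finset.card_univ]
  refine Finset.card_le_card_of_injOn f (fun h _ => ?_) (fun a _ b _ hab => hf hab)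
  simp only [Finset.coe_filter, Finset.mem_univ, true_and, Set.mem_ofPred_eq]
  rw [← map_pow, hE, map_one]

section

variable {O : Type*} [CommRing O] [IsDomain O] [IsDiscreteValuationRing O]
  {G : Type*} [Group G] [MulSemiringAction G O]

/-- an automorphism preserves the powers of the maximal ideal -/
private theorem smul_mem_pow16 (g : G) (i : ℕ) {x : O} (hx : x ∈ maximalIdeal O ^ i) :
    g • x ∈ maximalIdeal O ^ i := by
  obtain ⟨π, hπ⟩ := IsDiscreteValuationRing.exists_irreducible O
  have hm : maximalIdeal O = Ideal.span {π} := hπ.maximalIdeal_eq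
  rw [hm, Ideal.span_singleton_pow, Ideal.mem_span_singleton] at hx ⊢
  obtain ⟨y, rfl⟩ := hx
  have hg : Irreducible (g • π) := by
    have h := (MulEquiv.irreducible_iff (MulSemiringAction.toRingEquiv G O g)).2 hπ
    exact h
  obtain ⟨u, hu⟩ := IsDiscreteValuationRing.associated_of_irreducible O hπ hg
  rw [smul_mul', smul_pow', ← hu, mul_pow, mul_assoc]
  exact dvd_mul_right _ _

/-- an automorphism of exponent dividing a unit `E` which acts trivially on the residue field and on
`𝔪 / 𝔪 ^ 2` is trivial -/
private theorem eq_one16 [FaithfulSMul G O] {E : ℕ} (hu : IsUnit (E : O)) {g : G} (hE : g ^ E = 1)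
    (hg : ∀ x : O, g • x - x ∈ maximalIdeal O) {π : O} (hπ : Irreducible π) {u : O}
    (hgu : g • π = π * u) (hu1 : u - 1 ∈ maximalIdeal O) : g = 1 := by
  have hm : maximalIdeal O = Ideal.span {π} := hπ.maximalIdeal_eq
  have key : ∀ i : ℕ, ∀ x : O, g • x - x ∈ maximalIdeal O ^ (i + 1) := by
    intro i
    induction i with
    | zero => intro x; simpa using hg x
    | succ i ih =>
      -- `g` acts trivially on `𝔪 ^ (i + 1) / 𝔪 ^ (i + 2)`
      have h1 : ∀ z ∈ maximalIdeal O ^ (i + 1), g • z - z ∈ maximalIdeal O ^ (i + 1 + 1) := by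
        intro z hz
        rw [hm, Ideal.span_singleton_pow, Ideal.mem_span_singleton] at hz
        obtain ⟨a, rfl⟩ := hz
        have h2 : g • (π ^ (i + 1) * a) - π ^ (i + 1) * a =
            π ^ (i + 1) * (u ^ (i + 1) * (g • a - a) + (u ^ (i + 1) - 1) * a) := by
          rw [smul_mul', smul_pow', hgu]
          ring
        rw [h2, pow_succ (maximalIdeal O)]
        refine Ideal.mul_mem_mul ?_ ?_
        · rw [hm]
          exact Ideal.pow_mem_pow (Ideal.mem_span_singleton_self π) _
        · refine Ideal.add_mem _ (Ideal.mul_mem_left _ _ (hg a)) (Ideal.mul_mem_right _ _ ?_)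
          obtain ⟨c, hc⟩ := sub_one_dvd_pow_sub_one u (i + 1)
          rw [hc]
          exact Ideal.mul_mem_right _ _ hu1
      have h3 : ∀ n : ℕ, ∀ z ∈ maximalIdeal O ^ (i + 1),
          g ^ n • z - z ∈ maximalIdeal O ^ (i + 1 + 1) := by
        intro n
        induction n with
        | zero => intro z _; simp
        | succ n ihn =>
          intro z hz
          have h4 : g ^ (n + 1) • z - z = g • (g ^ n • z - z) + (g • z - z) := by
            rw [pow_succ', mul_smul, smul_sub]
            ring
          rw [h4]
          exact Ideal.add_mem _ (smul_mem_pow16 g _ (ihn z hz)) (h1 z hz)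
      intro x
      have h5 : ∀ n : ℕ, g ^ n • x - x - n * (g • x - x) ∈ maximalIdeal O ^ (i + 1 + 1) := by
        intro n
        induction n with
        | zero => simp
        | succ n ihn =>
          have h6 : g ^ (n + 1) • x - x - ((n + 1 : ℕ) : O) * (g • x - x) =
              (g ^ n • x - x - n * (g • x - x)) + (g ^ n • (g • x - x) - (g • x - x)) := by
            rw [pow_succ, mul_smul, smul_sub]
            push_cast
            ring
          rw [h6]
          exact Ideal.add_mem _ ihn (h3 n _ (ih x))
      have h7 := h5 E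
      rw [hE, one_smul, sub_self, zero_sub, neg_mem_iff] at h7
      exact (Ideal.unit_mul_mem_iff_mem _ hu).1 h7
  apply FaithfulSMul.eq_of_smul_eq_smul (α := O)
  intro x
  have h8 : g • x - x ∈ ⨅ i : ℕ, maximalIdeal O ^ i := by
    rw [Ideal.mem_iInf]
    intro i
    exact Ideal.pow_le_pow_right (Nat.le_succ i) (key i x)
  rw [Ideal.iInf_pow_eq_bot_of_isLocalRing _ (Ideal.IsPrime.ne_top'), Ideal.mem_bot,
    sub_eq_zero] at h8
  rw [h8, one_smul]

end

/-- a finite group of automorphisms of a discrete valuation ring with finite residue field whose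
exponent divides the unit `E` has at most `E ^ 2` elements -/
theorem card_le_sq {O : Type*} [CommRing O] [IsDomain O] [IsDiscreteValuationRing O]
    [Finite (IsLocalRing.ResidueField O)] {G : Type*} [Group G] [Finite G] [MulSemiringAction G O]
    [FaithfulSMul G O] {E : ℕ} (hE0 : 0 < E) (hE : ∀ g : G, g ^ E = 1) (hu : IsUnit (E : O)) :
    Nat.card G ≤ E ^ 2 := by
  classical
  obtain ⟨π, hπ⟩ := IsDiscreteValuationRing.exists_irreducible O
  -- the characteristic and the action on the residue field
  obtain ⟨p, hp⟩ := CharP.exists (ResidueField O)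
  have hpr : Fact p.Prime := ⟨CharP.char_is_prime (ResidueField O) p⟩
  let _ : Algebra (ZMod p) (ResidueField O) := ZMod.algebra _ p
  have hcomm : SMulCommClass G (ZMod p) (ResidueField O) := by
    refine ⟨fun g c x => ?_⟩
    rw [Algebra.smul_def, Algebra.smul_def, smul_mul']
    congr 1
    have h : (MulSemiringAction.toRingHom G (ResidueField O) g).comp
        (algebraMap (ZMod p) (ResidueField O)) = algebraMap (ZMod p) (ResidueField O) :=
      Subsingleton.elim _ _
    exact congrArg (fun f => f c) h
  set ρ : G →* Gal(ResidueField O/ZMod p) :=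
    MulSemiringAction.toAlgAut G (ZMod p) (ResidueField O) with hρ
  have hker : ∀ g ∈ ρ.ker, ∀ x : O, g • x - x ∈ maximalIdeal O := by
    intro g hg x
    rw [MonoidHom.mem_ker] at hg
    have h1 : ρ g (residue O x) = residue O x := by rw [hg]; rfl
    have h2 : ρ g (residue O x) = residue O (g • x) := (ResidueField.residue_smul G g x).symm
    rw [← residue_eq_zero_iff, map_sub, ← h2, h1, sub_self]
  -- the quotient
  have hq : Nat.card (G ⧸ ρ.ker) ≤ E := by
    refine card_le_of_cyclic16 (QuotientGroup.kerLift ρ) (QuotientGroup.kerLift_injective ρ) hE0 ?_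
    intro h
    induction h using QuotientGroup.induction_on with
    | H g => rw [← QuotientGroup.mk_pow, hE g, QuotientGroup.mk_one]
  -- the units
  have hunit : ∀ g : G, ∃ u : Oˣ, π * u = g • π := by
    intro g
    have hg : Irreducible (g • π) :=
      (MulEquiv.irreducible_iff (MulSemiringAction.toRingEquiv G O g)).2 hπ
    exact IsDiscreteValuationRing.associated_of_irreducible O hπ hg
  choose u huπ using hunit
  have hu1 : u 1 = 1 := by
    have h := huπ 1
    rw [one_smul] at h
    exact Units.ext (mul_left_cancel₀ hπ.ne_zero (by rw [h]; simp))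
  have humul : ∀ a b : G, (u (a * b) : O) = u a * a • (u b : O) := by
    intro a b
    apply mul_left_cancel₀ hπ.ne_zero
    rw [huπ, mul_smul, ← huπ b, smul_mul', ← huπ a, mul_assoc]
  let θ : ρ.ker →* (ResidueField O)ˣ :=
    { toFun := fun g => Units.map (residue O : O →* ResidueField O) (u g)
      map_one' := by
        ext
        simp [hu1]
      map_mul' := by
        intro a b
        ext
        simp only [Units.coe_map, Subgroup.coe_mul, Units.val_mul, MonoidHom.coe_coe]
        rw [humul, map_mul]
        congr 1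
        rw [← sub_eq_zero, ← map_sub, residue_eq_zero_iff]
        exact hker a a.2 _ }
  have hθ : Function.Injective θ := by
    rw [injective_iff_map_eq_one]
    intro g hg
    have h1 : residue O ((u g : Oˣ) : O) = 1 := by
      have := congrArg (fun z : (ResidueField O)ˣ => (z : ResidueField O)) hg
      simpa [θ] using this
    have h2 : ((u g : Oˣ) : O) - 1 ∈ maximalIdeal O := by
      rw [← residue_eq_zero_iff, map_sub, h1, map_one, sub_self]
    have h3 := eq_one16 hu (hE g) (hker g g.2) hπ (huπ g).symm h2
    exact Subtype.ext h3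
  have hi : Nat.card ρ.ker ≤ E :=
    card_le_of_cyclic16 θ hθ hE0 fun h => Subtype.ext (by simpa using hE h)
  rw [Subgroup.card_eq_card_quotient_mul_card_subgroup ρ.ker, pow_two]
  exact Nat.mul_le_mul hq hi

end Pool.Agent.Helper87.LX
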