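import Mathlib
import Pool.Agent.Helper87.LX.Grp

/-!
# LX-TAME: Galois extensions of `ℚ_p` of exponent prime to `p`

Proof of `tame_exp` in words. Let `G = F ≃ₐ[ℚ_[p]] F`, `|G| = [F : ℚ_p]` (`IsGalois.card_aut_eq_finrank`).
Let `O` be the ring of the `x ∈ F` with `‖x‖ ≤ 1` (the norm of `PadicAlgCl p`); `F` is a nontrivially
normed field, finite dimensional over `ℚ_p`, so it is proper (`FiniteDimensional.proper`), `O` is
compact, and it is a discrete valuation ring with finite residue field
(`Mathlib/Topology/Algebra/Valued/LocallyCompact.lean`: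
`compactSpace_iff_completeSpace_and_isDiscreteValuationRing_and_finite_residueField`); alternatively take
for `O` the integral closure of `ℤ_[p]` in `F`, a Dedekind domain (`integralClosure.isDedekindDomain`),
finite over `ℤ_[p]` (`IsIntegralClosure.finite`) and local (the elements of norm `< 1` are the maximal
ideal), with finite residue field. The group `G` preserves the norm (`spectralNorm_eq_of_equiv`), and
acts faithfully on `O`, since `F` is the field of fractions of `O`. `D` is a unit of `O` since `p ∤ D`.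
Now `card_le_sq` gives `[F : ℚ_p] = |G| ≤ D ^ 2`.
-/

set_option autoImplicit false

namespace Pool.Agent.Helper87.LX

open scoped NormedField Valued

section

variable {K : Type*} [NontriviallyNormedField K] [IsUltrametricDist K]

/-- the unit ball of a proper ultrametric field is a discrete valuation ring with finite residue
field -/
private theorem dvr16 [ProperSpace K] : IsDiscreteValuationRing 𝒪[K] ∧ Finite 𝓀[K] := by
  have h : CompactSpace 𝒪[K] := by
    rw [← isCompact_univ_iff, Subtype.isCompact_iff, Set.image_univ, Subtype.range_coe_subtype]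
    have h1 : {x : K | x ∈ 𝒪[K]} = Metric.closedBall 0 1 := by
      ext x
      simp [Valued.integer.mem_iff]
    rw [h1]
    exact isCompact_closedBall 0 1
  let _ : (Valued.v : Valuation K NNReal).RankOne :=
    { hom' := MonoidWithZeroHom.ValueGroup₀.embedding
      strictMono' := MonoidWithZeroHom.ValueGroup₀.embedding_strictMono
      exists_val_nontrivial := by
        obtain ⟨x, hx0, hx1⟩ := NormedField.exists_norm_lt_one K
        refine ⟨x, fun h0 => ?_, fun h1 => ?_⟩
        · have h2 : NormedField.valuation x = 0 := h0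
          rw [NormedField.valuation_apply, nnnorm_eq_zero] at h2
          exact hx0.ne' (by rw [h2, norm_zero])
        · have h2 : NormedField.valuation x = 1 := h1
          rw [NormedField.valuation_apply] at h2
          exact hx1.ne (by rw [← coe_nnnorm, h2, NNReal.coe_one]) }
  exact (Valued.integer.compactSpace_iff_completeSpace_and_isDiscreteValuationRing_and_finite_residueField.1 h).2

/-- a finite group of isometries of a proper ultrametric field of exponent dividing `E`, `E` of
absolute value one, has at most `E ^ 2` elements -/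
private theorem card_isom16 [ProperSpace K] {G : Type*} [Group G] [Finite G]
    [MulSemiringAction G K] [FaithfulSMul G K] (hG : ∀ (g : G) (x : K), ‖g • x‖ = ‖x‖) {E : ℕ}
    (hE0 : 0 < E) (hE : ∀ g : G, g ^ E = 1) (hu : ‖(E : K)‖ = 1) : Nat.card G ≤ E ^ 2 := by
  obtain ⟨h1, h2⟩ := dvr16 (K := K)
  let _ : MulSemiringAction G 𝒪[K] :=
    { smul := fun g x => ⟨g • (x : K), by
        rw [Valued.integer.mem_iff, hG]
        exact Valued.integer.mem_iff.1 x.2⟩
      one_smul := fun x => Subtype.ext (one_smul G (x : K))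
      mul_smul := fun g h x => Subtype.ext (mul_smul g h (x : K))
      smul_zero := fun g => Subtype.ext (smul_zero g)
      smul_add := fun g x y => Subtype.ext (smul_add g (x : K) (y : K))
      smul_one := fun g => Subtype.ext (smul_one g)
      smul_mul := fun g x y => Subtype.ext (MulSemiringAction.smul_mul g (x : K) (y : K)) }
  have hsm : ∀ (g : G) (x : 𝒪[K]), ((g • x : 𝒪[K]) : K) = g • (x : K) := fun _ _ => rfl
  have hf : FaithfulSMul G 𝒪[K] := by
    refine ⟨fun {g h} hgh => ?_⟩
    apply FaithfulSMul.eq_of_smul_eq_smul (α := K)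
    -- on the unit ball
    have h3 : ∀ x : K, ‖x‖ ≤ 1 → g • x = h • x := by
      intro x hx
      exact congrArg Subtype.val (hgh ⟨x, Valued.integer.mem_iff.2 hx⟩)
    intro x
    rcases le_total ‖x‖ 1 with hx | hx
    · exact h3 x hx
    · have h4 := h3 x⁻¹ (by rw [norm_inv]; exact inv_le_one_of_one_le₀ hx)
      have h5 : ∀ k : G, k • x⁻¹ = (k • x)⁻¹ := fun k => smul_inv'' k x
      rw [h5, h5, inv_inj] at h4
      exact h4
  refine card_le_sq (O := 𝒪[K]) (G := G) hE0 hE ?_
  rw [Valued.integer.isUnit_iff_norm_eq_one]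
  have h6 : ‖((E : 𝒪[K]) : K)‖ = 1 := by
    push_cast
    exact hu
  exact h6

end

/-- Galois extensions of `ℚ_p` of exponent prime to `p` -/
theorem tame_exp (D : ℕ) (hD : 0 < D) (p : ℕ) [Fact p.Prime] (hp : ¬ p ∣ D)
    (F : IntermediateField ℚ_[p] (PadicAlgCl p)) [FiniteDimensional ℚ_[p] F] [IsGalois ℚ_[p] F]
    (hF : ∀ σ : F ≃ₐ[ℚ_[p]] F, σ ^ D = 1) : Module.finrank ℚ_[p] F ≤ D ^ 2 := by
  rw [← IsGalois.card_aut_eq_finrank]
  have hproper : ProperSpace F := FiniteDimensional.proper ℚ_[p] F
  have hult : IsUltrametricDist F := inferInstance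
  have hnorm : ∀ x : F, ‖x‖ = spectralNorm ℚ_[p] F x := by
    intro x
    rw [spectralNorm.eq_of_tower (L := PadicAlgCl p)]
    rfl
  refine card_isom16 (K := F) (G := F ≃ₐ[ℚ_[p]] F) (fun g x => ?_) hD hF ?_
  · rw [hnorm, hnorm]
    exact (spectralNorm_eq_of_equiv g x).symm
  · have h1 : ‖(D : F)‖ = ‖(D : ℚ_[p])‖ := by
      have h2 : ‖((D : ℚ_[p]) : PadicAlgCl p)‖ = ‖(D : ℚ_[p])‖ := PadicAlgCl.norm_extends p D
      rw [← h2]
      have h3 : ‖(D : F)‖ = ‖((D : F) : PadicAlgCl p)‖ := rfl
      rw [h3]
      congr 1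
    rw [h1]
    have h4 : ¬ ‖((D : ℤ) : ℚ_[p])‖ < 1 := by
      rw [Padic.norm_intCast_lt_one_iff]
      exact_mod_cast hp
    have h5 : ‖((D : ℤ) : ℚ_[p])‖ ≤ 1 := Padic.norm_int_le_one (D : ℤ)
    have h6 : ((D : ℤ) : ℚ_[p]) = (D : ℚ_[p]) := by push_cast; rfl
    rw [h6] at h4 h5
    exact le_antisymm h5 (not_lt.1 h4)

end Pool.Agent.Helper87.LX
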