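import Mathlib
import Pool.Agent.Helper26.FU.Alg
import Pool.Agent.Helper87.LX.Tame
import Pool.Agent.Helper87.LW2.Resid

/-!
# LX: embeddings for points over Galois extensions of bounded exponent
-/

set_option autoImplicit false

namespace Pool.Agent.Helper87.LX

open MvPolynomial Pool.Agent.Helper87.LD Pool.Agent.Helper87.LW Pool.Agent.Helper87.LW2 Cardinal
open Pool.Agent.Helper26.LT (countable_closure)
open Pool.Agent.Helper26.FU (exists_embedding exists_lift_complex aleph0_lt_intermediate)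

noncomputable section

/-- the coordinates of `α` lie in a Galois extension of exponent `D` of a purely transcendental
extension of `L` -/
def ExpM {k : ℕ} {nn : Fin k → ℕ} (L : Subfield ℂ) (D : ℕ) (α : (b : Fin k) → Fin (nn b) → ℂ) :
    Prop :=
  ∃ (r : ℕ) (t : Fin r → ℂ) (E : Subfield ℂ) (M : IntermediateField E ℂ),
    AlgebraicIndependent L t ∧ E = Subfield.closure ((L : Set ℂ) ∪ Set.range t) ∧
      IsGalois E M ∧ (∀ σ : M ≃ₐ[E] M, σ ^ D = 1) ∧ ∀ b i, α b i ∈ M

variable {q : ℕ} [hq : Fact q.Prime]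

section galois

variable {E : Subfield ℂ} {τ : ℂ →+* PadicAlgCl q}
  (hE : ∀ z ∈ E, τ z ∈ (⊥ : IntermediateField ℚ_[q] (PadicAlgCl q)))

include hE

/-- the base field is mapped into `ℚ_q` -/
theorem exists_base : ∃ ψ : E →+* ℚ_[q], ∀ w : E, algebraMap ℚ_[q] (PadicAlgCl q) (ψ w) = τ w := by
  let ψ₀ : E →+* (⊥ : IntermediateField ℚ_[q] (PadicAlgCl q)) :=
    (τ.comp E.subtype).codRestrict _ fun z => hE _ z.2
  refine ⟨(IntermediateField.botEquiv ℚ_[q] (PadicAlgCl q)).toRingEquiv.toRingHom.comp ψ₀,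
    fun w => ?_⟩
  have h1 : (algebraMap ℚ_[q] (⊥ : IntermediateField ℚ_[q] (PadicAlgCl q))
      ((IntermediateField.botEquiv ℚ_[q] (PadicAlgCl q)) (ψ₀ w))) = ψ₀ w := by
    rw [← IntermediateField.botEquiv_symm]
    exact (IntermediateField.botEquiv ℚ_[q] (PadicAlgCl q)).symm_apply_apply _
  exact congrArg Subtype.val h1

/-- conjugates of the images are images of conjugates -/
theorem exists_conj (g : PadicAlgCl q →ₐ[ℚ_[q]] PadicAlgCl q) {z : ℂ} (hz : IsIntegral E z) :
    ∃ z' : ℂ, (minpoly E z).aeval z' = 0 ∧ g (τ z) = τ z' := by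
  obtain ⟨ψ, hψ⟩ := exists_base hE
  have h3 : (algebraMap ℚ_[q] (PadicAlgCl q)).comp ψ = τ.comp (algebraMap E ℂ) :=
    RingHom.ext fun w => hψ w
  have h1 : Polynomial.eval₂ (τ.comp (algebraMap E ℂ)) (g (τ z)) (minpoly E z) = 0 := by
    have h2 : Polynomial.aeval (g (τ z)) ((minpoly E z).map ψ) = 0 := by
      rw [Polynomial.aeval_algHom_apply, Polynomial.aeval_def, Polynomial.eval₂_map, h3,
        ← Polynomial.hom_eval₂, ← Polynomial.aeval_def, minpoly.aeval, map_zero, map_zero]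
    rw [Polynomial.aeval_def, Polynomial.eval₂_map, h3] at h2
    exact h2
  have hsp : ((minpoly E z).map (algebraMap E ℂ)).Splits := IsAlgClosed.splits _
  have hmon : ((minpoly E z).map (algebraMap E ℂ)).Monic := (minpoly.monic hz).map _
  rw [← Polynomial.eval₂_map, hsp.eq_prod_roots_of_monic hmon, Polynomial.eval₂_eq_eval_map,
    Polynomial.map_multiset_prod, Polynomial.eval_multiset_prod, Multiset.prod_eq_zero_iff,
    Multiset.map_map, Multiset.map_map] at h1
  obtain ⟨z', hz', hz0⟩ := Multiset.mem_map.1 h1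
  refine ⟨z', ?_, ?_⟩
  · have h4 := (Polynomial.mem_roots hmon.ne_zero).1 hz'
    rw [Polynomial.IsRoot.def, Polynomial.eval_map] at h4
    exact h4
  · simp only [Function.comp_apply, Polynomial.map_sub, Polynomial.map_X, Polynomial.map_C,
      Polynomial.eval_sub, Polynomial.eval_X, Polynomial.eval_C] at hz0
    exact sub_eq_zero.1 hz0

/-- conjugates of the images of the elements of a normal extension -/
theorem exists_conj_mem {M : IntermediateField E ℂ} [IsGalois E M]
    (g : PadicAlgCl q →ₐ[ℚ_[q]] PadicAlgCl q) (m : M) : ∃ m' : M, g (τ m) = τ m' := by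
  have hint : IsIntegral E (m : ℂ) := (Algebra.IsIntegral.isIntegral (R := E) m).map M.val
  obtain ⟨z', hz', hg⟩ := exists_conj hE g hint
  have hmin : minpoly E (m : ℂ) = minpoly E m := minpoly.algebraMap_eq M.val.injective m
  have hnorm : ((minpoly E m).map (algebraMap E M)).Splits := Normal.splits inferInstance m
  have h1 : z' ∈ (M.val : M →+* ℂ).range := by
    refine hnorm.mem_range_of_isRoot ((Polynomial.map_ne_zero (minpoly.ne_zero
      (Algebra.IsIntegral.isIntegral (R := E) m)))) ?_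
    rw [Polynomial.map_map, Polynomial.IsRoot.def, Polynomial.eval_map]
    rw [hmin] at hz'
    exact hz'
  obtain ⟨m', hm'⟩ := h1
  exact ⟨m', by rw [hg, ← hm']; rfl⟩

/-- the automorphism of `M` given by an automorphism of the closure of `ℚ_q` -/
theorem exists_aut {M : IntermediateField E ℂ} [IsGalois E M]
    (g : PadicAlgCl q ≃ₐ[ℚ_[q]] PadicAlgCl q) :
    ∃ σ : M ≃ₐ[E] M, ∀ m : M, g (τ m) = τ (σ m) := by
  obtain ⟨ψ, hψ⟩ := exists_base hE
  have key : ∀ g : PadicAlgCl q ≃ₐ[ℚ_[q]] PadicAlgCl q, ∃ f : M →ₐ[E] M, ∀ m : M,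
      g (τ m) = τ (f m) := by
    intro g
    choose f hf using fun m : M => exists_conj_mem hE (g : PadicAlgCl q →ₐ[ℚ_[q]] PadicAlgCl q) m
    have hf' : ∀ m : M, g (τ m) = τ (f m) := hf
    have hinj : ∀ x y : M, τ x = τ y → x = y := fun x y h => Subtype.ext (τ.injective h)
    refine ⟨{ toFun := f, map_one' := ?_, map_mul' := ?_, map_zero' := ?_, map_add' := ?_,
              commutes' := ?_ }, hf'⟩
    · apply hinj
      rw [← hf']
      simp
    · intro x y
      apply hinj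
      rw [← hf']
      simp only [MulMemClass.coe_mul, map_mul, hf']
    · apply hinj
      rw [← hf']
      simp
    · intro x y
      apply hinj
      rw [← hf']
      simp only [AddMemClass.coe_add, map_add, hf']
    · intro w
      apply hinj
      rw [← hf']
      have h1 : τ ((algebraMap E M w : M) : ℂ) = algebraMap ℚ_[q] (PadicAlgCl q) (ψ w) := (hψ w).symm
      rw [h1, AlgEquiv.commutes]
  obtain ⟨f, hf⟩ := key g
  obtain ⟨f', hf'⟩ := key g.symm
  have hinj : ∀ x y : M, τ x = τ y → x = y := fun x y h => Subtype.ext (τ.injective h)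
  refine ⟨AlgEquiv.ofAlgHom f f' ?_ ?_, hf⟩
  · ext m
    apply τ.injective
    simp only [AlgHom.comp_apply, AlgHom.id_apply]
    rw [← hf, ← hf', AlgEquiv.apply_symm_apply]
  · ext m
    apply τ.injective
    simp only [AlgHom.comp_apply, AlgHom.id_apply]
    rw [← hf', ← hf, AlgEquiv.symm_apply_apply]

/-- a power of an automorphism fixes the image of `M` -/
theorem pow_fix {M : IntermediateField E ℂ} [IsGalois E M] {D : ℕ}
    (hM : ∀ σ : M ≃ₐ[E] M, σ ^ D = 1) (g : PadicAlgCl q ≃ₐ[ℚ_[q]] PadicAlgCl q) (m : M) :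
    (g ^ D) (τ m) = τ m := by
  obtain ⟨σ, hσ⟩ := exists_aut hE (M := M) g
  have h1 : ∀ n : ℕ, (g ^ n) (τ m) = τ ((σ ^ n) m) := by
    intro n
    induction n with
    | zero => simp
    | succ n ih =>
      rw [pow_succ', AlgEquiv.mul_apply, ih, hσ, pow_succ', AlgEquiv.mul_apply]
  rw [h1, hM, AlgEquiv.one_apply]

/-- the local extension -/
theorem exists_local {M : IntermediateField E ℂ} [IsGalois E M] {D : ℕ} (hD : 0 < D)
    (hDq : ¬ q ∣ D) (hM : ∀ σ : M ≃ₐ[E] M, σ ^ D = 1) (S : Finset ℂ) (hS : ∀ z ∈ S, z ∈ M) :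
    ∃ F : IntermediateField ℚ_[q] (PadicAlgCl q), FiniteDimensional ℚ_[q] F ∧
      Module.finrank ℚ_[q] F ≤ D ^ 2 ∧ ∀ z ∈ S, τ z ∈ F := by
  classical
  have hint : ∀ z ∈ M, IsIntegral E z := fun z hz =>
    (Algebra.IsIntegral.isIntegral (R := E) (⟨z, hz⟩ : M)).map M.val
  -- all conjugates
  set T : Finset ℂ := S.biUnion fun z => (minpoly E z).aroots ℂ |>.toFinset with hT
  set F : IntermediateField ℚ_[q] (PadicAlgCl q) :=
    IntermediateField.adjoin ℚ_[q] ((T.image τ : Finset (PadicAlgCl q)) : Set (PadicAlgCl q)) with hF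
  have hfin : FiniteDimensional ℚ_[q] F :=
    IntermediateField.finiteDimensional_adjoin fun z _ => Algebra.IsIntegral.isIntegral z
  have hmemT : ∀ z ∈ S, ∀ z' : ℂ, Polynomial.aeval z' (minpoly E z) = 0 → z' ∈ T := by
    intro z hz z' hz'
    rw [hT, Finset.mem_biUnion]
    refine ⟨z, hz, ?_⟩
    rw [Multiset.mem_toFinset, Polynomial.mem_aroots]
    exact ⟨minpoly.ne_zero (hint z (hS z hz)), hz'⟩
  have hTS : ∀ z' ∈ T, ∃ z ∈ S, Polynomial.aeval z' (minpoly E z) = 0 := by
    intro z' hz'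
    rw [hT, Finset.mem_biUnion] at hz'
    obtain ⟨z, hz, hz'⟩ := hz'
    rw [Multiset.mem_toFinset, Polynomial.mem_aroots] at hz'
    exact ⟨z, hz, hz'.2⟩
  have hTM : ∀ z' ∈ T, ∃ m : M, (m : ℂ) = z' := by
    intro z' hz'
    obtain ⟨z, hz, hz'⟩ := hTS z' hz'
    have hmin : minpoly E z = minpoly E (⟨z, hS z hz⟩ : M) :=
      minpoly.algebraMap_eq M.val.injective (⟨z, hS z hz⟩ : M)
    rw [hmin] at hz'
    have h1 : z' ∈ (M.val : M →+* ℂ).range := by
      refine (Normal.splits (F := E) (K := M) inferInstance ⟨z, hS z hz⟩).mem_range_of_isRoot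
        ((Polynomial.map_ne_zero (minpoly.ne_zero
          (Algebra.IsIntegral.isIntegral (R := E) _)))) ?_
      rw [Polynomial.map_map, Polynomial.IsRoot.def, Polynomial.eval_map]
      exact hz'
    obtain ⟨m, hm⟩ := h1
    exact ⟨m, hm⟩
  have hTmem : ∀ z' ∈ T, τ z' ∈ F := fun z' hz' =>
    IntermediateField.subset_adjoin _ _ (Finset.mem_coe.2 (Finset.mem_image_of_mem τ hz'))
  have hnorm : Normal ℚ_[q] F := by
    rw [IntermediateField.normal_iff_forall_map_le]
    intro g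
    rw [hF, IntermediateField.adjoin_map, IntermediateField.adjoin_le_iff]
    rintro _ ⟨w, hw, rfl⟩
    rw [Finset.mem_coe, Finset.mem_image] at hw
    obtain ⟨z', hz', rfl⟩ := hw
    obtain ⟨z, hz, hzz'⟩ := hTS z' hz'
    have hz'int : IsIntegral E z' := ⟨minpoly E z, minpoly.monic (hint z (hS z hz)), hzz'⟩
    obtain ⟨z'', hz'', hg⟩ := exists_conj hE g hz'int
    have h1 : Polynomial.aeval z'' (minpoly E z) = 0 := by
      obtain ⟨u, hu⟩ := minpoly.dvd E z' hzz'
      rw [hu, map_mul, hz'', zero_mul]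
    have h2 := hTmem z'' (hmemT z hz z'' h1)
    rw [hg]
    exact h2
  have hgal : IsGalois ℚ_[q] F := IsGalois.mk
  refine ⟨F, hfin, tame_exp D hD q hDq F fun σ => ?_, fun z hz => hTmem z (hmemT z hz z
    (minpoly.aeval E z))⟩
  obtain ⟨g, hg⟩ := AlgEquiv.restrictNormalHom_surjective (F := ℚ_[q]) (K₁ := F) (PadicAlgCl q) σ
  have hfix : ∀ x ∈ F, (g ^ D) x = x := by
    intro x hx
    rw [hF] at hx
    induction hx using IntermediateField.adjoin_induction with
    | mem w hw =>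
      rw [Finset.mem_coe, Finset.mem_image] at hw
      obtain ⟨z', hz', rfl⟩ := hw
      obtain ⟨m, rfl⟩ := hTM z' hz'
      exact pow_fix hE hM g m
    | algebraMap w => exact AlgEquiv.commutes _ _
    | add w w' _ _ h h' => rw [map_add, h, h']
    | inv w _ h => rw [map_inv₀, h]
    | mul w w' _ _ h h' => rw [map_mul, h, h']
  rw [← hg, ← map_pow]
  ext x
  have h1 : algebraMap F (PadicAlgCl q) (AlgEquiv.restrictNormalHom F (g ^ D) x) =
      (g ^ D) (algebraMap F (PadicAlgCl q) x) := AlgEquiv.restrictNormal_commutes (g ^ D) F x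
  exact h1.trans (hfix x x.2)

end galois

/-- an embedding for which the point is defined over an algebra of bounded dimension -/
theorem exists_embC (L : Subfield ℂ) (hL : (L : Set ℂ).Countable)
    (φ : L →+* ℚ_[q]) {k D : ℕ} (hD : 0 < D) (hDq : D < q) {nn : Fin k → ℕ}
    {α : (b : Fin k) → Fin (nn b) → ℂ} (hα : ExpM L D α) :
    ∃ (τ : ℂ →+* PadicAlgCl q) (L' : Subalgebra ℚ_[q] (PadicAlgCl q)),
      FiniteDimensional ℚ_[q] L' ∧ Module.finrank ℚ_[q] L' ≤ D ^ 2 ∧
      (∀ z : L, τ z = algebraMap ℚ_[q] (PadicAlgCl q) (φ z)) ∧ ∀ b i j, τ (α b i / α b j) ∈ L' := by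
  classical
  obtain ⟨r, t, E, M, ht, hE, hgal, hM, hαM⟩ := hα
  have : Countable L := hL
  obtain ⟨τ₀, hτ₀⟩ := exists_lift_complex (K := L)
    ((algebraMap ℚ_[q] (PadicAlgCl q)).comp φ)
  have hL₀ : ∀ z ∈ L, τ₀ z ∈ (⊥ : IntermediateField ℚ_[q] (PadicAlgCl q)).toSubfield := by
    intro z hz
    have h1 := hτ₀ ⟨z, hz⟩
    have h2 : τ₀ z = algebraMap ℚ_[q] (PadicAlgCl q) (φ ⟨z, hz⟩) := h1
    rw [h2]
    exact (⊥ : IntermediateField ℚ_[q] (PadicAlgCl q)).algebraMap_mem _
  obtain ⟨τ, hτ, hτt⟩ := exists_embedding L hL τ₀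
    (⊥ : IntermediateField ℚ_[q] (PadicAlgCl q)).toSubfield
    (aleph0_lt_intermediate _) hL₀ ht
  have hEK : ∀ z ∈ E, τ z ∈ (⊥ : IntermediateField ℚ_[q] (PadicAlgCl q)) := by
    have h1 : E ≤ ((⊥ : IntermediateField ℚ_[q] (PadicAlgCl q)).toSubfield).comap τ := by
      rw [hE, Subfield.closure_le]
      rintro z (hz | ⟨i, rfl⟩)
      · have h2 := hL₀ z hz
        rw [← hτ z hz] at h2
        exact h2
      · exact hτt i
    exact fun z hz => h1 hz
  set S : Finset ℂ := Finset.univ.image fun c : (b : Fin k) × Fin (nn b) => α c.1 c.2 with hS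
  have hSM : ∀ z ∈ S, z ∈ M := by
    intro z hz
    rw [hS, Finset.mem_image] at hz
    obtain ⟨c, -, rfl⟩ := hz
    exact hαM _ _
  obtain ⟨F, hfin, hrank, hmem⟩ := exists_local hEK hD
    (fun h => absurd (Nat.le_of_dvd hD h) (by omega)) hM S hSM
  have hmem' : ∀ b i, τ (α b i) ∈ F := fun b i =>
    hmem _ (by rw [hS, Finset.mem_image]; exact ⟨⟨b, i⟩, Finset.mem_univ _, rfl⟩)
  refine ⟨τ, F.toSubalgebra, hfin, hrank, ?_, ?_⟩
  · intro z
    rw [hτ z z.2]
    exact hτ₀ z
  · intro b i j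
    rw [map_div₀]
    exact (show τ (α b i) / τ (α b j) ∈ F from div_mem (hmem' b i) (hmem' b j))

end

end Pool.Agent.Helper87.LX
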