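import Mathlib
import Pool.Agent.Helper87.LX.Emb

/-!
# LX: the residue classes of the generators at a prime for which the field embeds
-/

set_option autoImplicit false

namespace Pool.Agent.Helper87.LX

open MvPolynomial Pool.Agent.Helper87.LD Pool.Agent.Helper87.LW Pool.Agent.Helper87.LW2 Cardinal
open Pool.Agent.Helper87.DMLP (primesFor not_summable_primesFor prime_of_mem_primesFor)
open Pool.Agent.Helper87.MQ (exists_field_emb_compat)
open Pool.Agent.Helper26.LT (countable_closure)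
open Pool.Agent.Helper26.FU (bd)

noncomputable section

/-- the dichotomy at a prime -/
def DichC {m : ℕ} (e : Fin m → ℂ) (L : Subfield ℂ) (D q : ℕ) (E : Fin m → ZMod q) : Prop :=
  ∃ _ : Fact q.Prime, ∀ (k n δ : ℕ) (nn d : Fin k → ℕ), (∀ b, nn b ≤ n) → ∃ K : ℕ,
    ∀ c : (b : Fin k) → Fin m × Idx (nn b) (d b) → ℤ,
      (∀ b, GoodD (D ^ 2) (lf E (c b))) →
    ∀ α : (b : Fin k) → Fin (nn b) → ℂ, (∀ b, α b ≠ 0) → ExpM L D α →
    ∀ V : Set (MvPolynomial ((b : Fin k) × Fin (nn b)) ℂ),
      (∀ G ∈ V, MultiHomS G ∧ G.totalDegree ≤ δ) →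
    ∀ r : ℕ,
      {l | bd (k * n) q (D ^ 2) + r + (bd (k * n) q (D ^ 2)).factorial *
        (bd (k * n) q (D ^ 2)).factorial * l ∈
        retM (fun b => lf e (c b)) α V}.encard ≤ K ∨
      ∀ l, bd (k * n) q (D ^ 2) + r + (bd (k * n) q (D ^ 2)).factorial *
        (bd (k * n) q (D ^ 2)).factorial * l ∈
        retM (fun b => lf e (c b)) α V

/-- the residue classes of the generators at a prime for which the field embeds -/
theorem exists_residuesC (m : ℕ) (e : Fin m → ℂ) (he : e ≠ 0) (A : Finset ℂ)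
    (heA : ∀ j, e j ∈ Subfield.closure (A : Set ℂ)) (D : ℕ) (hD : 0 < D) :
    ∃ A' : Finset ℂ, ∀ q ∈ primesFor A', 3 ≤ q → D < q → ∃ E : Fin m → ZMod q, E ≠ 0 ∧
      DichC e (Subfield.closure (A : Set ℂ)) D q E := by
  classical
  obtain ⟨j₀, hj₀⟩ := Function.ne_iff.1 he
  set A' : Finset ℂ := A ∪ (Finset.univ.image e ∪ {(e j₀)⁻¹}) with hA'
  refine ⟨A', fun q hq hq3 hqD => ?_⟩
  obtain ⟨hF, ι, φ, hφ⟩ := exists_field_emb_compat A' q hq
  have hej : ∀ j, e j ∈ Subring.closure (A' : Set ℂ) := fun j =>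
    Subring.subset_closure (Finset.mem_coe.2 (Finset.mem_union_right _
      (Finset.mem_union_left _ (Finset.mem_image_of_mem _ (Finset.mem_univ j)))))
  have hinv : (e j₀)⁻¹ ∈ Subring.closure (A' : Set ℂ) :=
    Subring.subset_closure (Finset.mem_coe.2 (Finset.mem_union_right _
      (Finset.mem_union_right _ (Finset.mem_singleton_self _))))
  have hle : Subring.closure (A' : Set ℂ) ≤ (Subfield.closure (A' : Set ℂ)).toSubring :=
    Subfield.subring_closure_le _
  have hAsub : (A : Set ℂ) ⊆ (A' : Set ℂ) := by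
    rw [hA', Finset.coe_union]
    exact Set.subset_union_left
  have hAA' : Subfield.closure (A' : Set ℂ) = Subfield.closure (A : Set ℂ) := by
    refine le_antisymm ?_ (Subfield.closure_mono hAsub)
    rw [Subfield.closure_le]
    intro z hz
    rw [Finset.mem_coe, hA', Finset.mem_union, Finset.mem_union, Finset.mem_image,
      Finset.mem_singleton] at hz
    rcases hz with hz | ⟨j, -, rfl⟩ | rfl
    · exact Subfield.subset_closure hz
    · exact heA j
    · exact inv_mem (heA j₀)
  refine ⟨fun j => PadicInt.toZMod (ι ⟨e j, hej j⟩), ?_, hF, ?_⟩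
  · intro h0
    have h1 : (⟨e j₀, hej j₀⟩ : Subring.closure (A' : Set ℂ)) * ⟨(e j₀)⁻¹, hinv⟩ = 1 :=
      Subtype.ext (mul_inv_cancel₀ hj₀)
    have h2 := congrArg (fun z => PadicInt.toZMod (ι z)) h1
    simp only [map_mul, map_one] at h2
    have h3 := congrFun h0 j₀
    simp only [Pi.zero_apply] at h3
    rw [h3, zero_mul] at h2
    exact zero_ne_one h2
  intro k n δ nn d hnn
  have hcL : ∀ j, e j ∈ Subfield.closure (A' : Set ℂ) := fun j => hle (hej j)
  obtain ⟨K₁, hK⟩ := core_mixed (p := q) hq3 k n (D ^ 2) δ nn d hnn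
  refine ⟨K₁, ?_⟩
  intro c hG α hα hαL V hV r
  rw [← hAA'] at hαL
  obtain ⟨τ, L', hfin, hrank, hτ, hτα⟩ := exists_embC (Subfield.closure (A' : Set ℂ))
    (countable_closure A') φ hD hqD hαL
  let cp : (b : Fin k) → Idx (nn b) (d b) → ℤ_[q] := fun b =>
    lc (fun j => ι ⟨e j, hej j⟩) fun j => (c b j : ℤ_[q])
  have h1 : ∀ b, (form fun i => PadicInt.toZMod (cp b i)) =
      lf (fun j => PadicInt.toZMod (ι ⟨e j, hej j⟩)) (c b) := by
    intro b
    rw [lf]
    congr 1
    funext i
    simp only [cp]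
    rw [lc, lc, map_sum]
    refine Finset.sum_congr rfl fun j _ => ?_
    rw [map_mul, map_intCast]
  have h2 : ∀ b i, τ (lc e (fun j => (c b j : ℂ)) i) =
      algebraMap ℤ_[q] (PadicAlgCl q) (cp b i) := by
    intro b i
    simp only [cp]
    rw [lc, lc, map_sum, map_sum]
    refine Finset.sum_congr rfl fun j _ => ?_
    rw [map_mul, map_mul, map_intCast, map_intCast]
    congr 1
    have h3 := hτ ⟨e j, hcL j⟩
    rw [hφ (e j) (hej j) (hcL j)] at h3
    exact h3
  have h4 := hK cp (fun b => by rw [h1 b]; exact hG b) τ (fun b => lc e fun j => (c b j : ℂ)) h2 L'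
    hrank α hα hτα
  by_cases hall : ∀ G ∈ V, ∀ l, eval (orb (fun b => lf e (c b)) α
      (bd (k * n) q (D ^ 2) + r + (bd (k * n) q (D ^ 2)).factorial *
        (bd (k * n) q (D ^ 2)).factorial * l)) G = 0
  · right
    intro l G hGV
    exact hall G hGV l
  · push Not at hall
    obtain ⟨G, hGV, l, hl⟩ := hall
    rcases h4 G (hV G hGV).1 (hV G hGV).2 r with h5 | h5
    · left
      refine le_trans (Set.encard_le_encard ?_) h5
      intro l' hl'
      exact hl' G hGV
    · exact absurd (h5 l) hl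

end

end Pool.Agent.Helper87.LX
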