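import Mathlib
import Pool.Agent.Helper87.LX.Resid
import Pool.Agent.Helper87.LW2.EndoM

/-!
# LX: almost all tuples of endomorphisms of projective spaces, points over infinite fields. Assembly
-/

set_option autoImplicit false

namespace Pool.Agent.Helper87.LX

open MvPolynomial Pool.Agent.Helper87.LD Pool.Agent.Helper87.LW Pool.Agent.Helper87.LW2
open Pool.Agent.Helper87.DMLP (primesFor not_summable_primesFor prime_of_mem_primesFor)
open Pool.Agent.Helper26.FU (bd)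

noncomputable section

/-- the uniform dynamical Mordell-Lang conjecture for the products of the maps given by a tuple of
families -/
def DMLC {s : ℕ} {nn : Fin s → ℕ} {m : ℕ} {d : Fin s → ℕ} (e : Fin m → ℂ) (L : Subfield ℂ) (D : ℕ)
    (n₀ Q : ℕ → ℕ) (K : ℕ → ℕ → ℕ) (c : IdxM nn m d → ℤ) : Prop :=
  ∀ (k : ℕ) (σ : Fin k → Fin s) (α : (b : Fin k) → Fin (nn (σ b)) → ℂ), (∀ b, α b ≠ 0) →
    ExpM L D α →
    ∀ (δ : ℕ) (V : Set (MvPolynomial ((b : Fin k) × Fin (nn (σ b))) ℂ)),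
      (∀ G ∈ V, MultiHomS G ∧ G.totalDegree ≤ δ) →
      IsAPU (n₀ k) (Q k) (K k δ) (retM (fun b => lf e fun j => c ⟨σ b, j⟩) α V)

/-- **Main theorem.** -/
theorem lx_main {s : ℕ} (nn : Fin s → ℕ) (D : ℕ) (hD : 0 < D) (hdens : DensOKM nn (D ^ 2)) (m : ℕ) (e : Fin m → ℂ)
    (he : e ≠ 0) (A : Finset ℂ) (heA : ∀ j, e j ∈ Subfield.closure (A : Set ℂ)) (ε : ℝ)
    (hε : 0 < ε) :
    ∃ (d₀ : ℕ) (n₀ Q : ℕ → ℕ), (∀ k, 1 ≤ Q k) ∧ ∀ d : Fin s → ℕ, (∀ a, d₀ ≤ d a) →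
      ∃ (K : ℕ → ℕ → ℕ) (B₀ : ℕ), ∀ B : ℕ, B₀ ≤ B →
      (1 - ε) * (2 * (B : ℝ) + 1) ^ Fintype.card (IdxM nn m d) ≤
        ({c : IdxM nn m d → ℤ | (∀ i, |c i| ≤ (B : ℤ)) ∧
          (∀ a, ∀ z : Fin (nn a) → ℂ, (∀ i, eval z (lf e (fun j => c ⟨a, j⟩) i) = 0) → z = 0) ∧
          DMLC e (Subfield.closure (A : Set ℂ)) D n₀ Q K c}.ncard : ℝ) := by
  classical
  obtain ⟨κ, p₀, hκ, hdens⟩ := hdens
  obtain ⟨A', hA'⟩ := exists_residuesC m e he A heA D hD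
  obtain ⟨n, hn⟩ : ∃ n : ℕ, ∀ a, nn a ≤ n :=
    ⟨∑ a, nn a, fun a => Finset.single_le_sum (fun _ _ => Nat.zero_le _) (Finset.mem_univ a)⟩
  obtain ⟨P, hP, hprod⟩ := exists_primes_prodK (primesFor A') (not_summable_primesFor A')
    κ (max p₀ (max 3 (D + 1))) hκ (ε / 3) (by linarith)
  have hPprime : ∀ q ∈ P, q.Prime := fun q hq => prime_of_mem_primesFor A' q (hP q hq).1
  -- the degrees
  have hdex : ∀ q : ℕ, ∃ d₁ : ℕ, q ∈ P → ∀ _ : Fact q.Prime, ∀ d : Fin s → ℕ, (∀ a, d₁ ≤ d a) →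
      ∏ a, q ^ Fintype.card (Idx (nn a) (d a)) ≤
        κ * q * ∏ a, Nat.card {c : Idx (nn a) (d a) → ZMod q // GoodD (D ^ 2) (form c)} := by
    intro q
    by_cases hq : q ∈ P
    · have := Fact.mk (hPprime q hq)
      obtain ⟨d₁, hd₁⟩ := hdens q ((le_max_left _ _).trans (hP q hq).2)
      exact ⟨d₁, fun _ _ d hd => hd₁ d hd⟩
    · exact ⟨0, fun h => absurd h hq⟩
  choose dq hdq using hdex
  -- the residues
  have hEex : ∀ q : ℕ, ∃ E : Fin m → ZMod q, q ∈ P →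
      (E ≠ 0 ∧ DichC e (Subfield.closure (A : Set ℂ)) D q E) := by
    intro q
    by_cases hq : q ∈ P
    · obtain ⟨E, hE⟩ := hA' q (hP q hq).1
        (((le_max_left _ _).trans (le_max_right _ _)).trans (hP q hq).2)
        (Nat.lt_of_succ_le (((le_max_right _ _).trans (le_max_right _ _)).trans (hP q hq).2))
      exact ⟨E, fun _ => hE⟩
    · exact ⟨0, fun h => absurd h hq⟩
  choose E hE using hEex
  let nq : ℕ → ℕ → ℕ := fun q k => bd (k * n) q (D ^ 2)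
  let Tq : ℕ → ℕ → ℕ := fun q k => (bd (k * n) q (D ^ 2)).factorial * (bd (k * n) q (D ^ 2)).factorial
  have hTq : ∀ q k, 1 ≤ Tq q k := fun q k =>
    Nat.succ_le_of_lt (Nat.mul_pos (Nat.factorial_pos _) (Nat.factorial_pos _))
  have hQpos : ∀ k, 1 ≤ ∏ q ∈ P, Tq q k := fun k =>
    Nat.succ_le_of_lt (Finset.prod_pos fun q _ => hTq q k)
  refine ⟨∑ q ∈ P, dq q, fun k => ∑ q ∈ P, nq q k, fun k => ∏ q ∈ P, Tq q k, hQpos,
    fun d hd => ?_⟩
  have hKex : ∀ (q k δ : ℕ) (σ : Fin k → Fin s), ∃ K : ℕ, q ∈ P →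
        ∀ c : (b : Fin k) → Fin m × Idx (nn (σ b)) (d (σ b)) → ℤ,
        (∃ _ : Fact q.Prime, ∀ b, GoodD (D ^ 2) (lf (E q) (c b))) →
        ∀ α : (b : Fin k) → Fin (nn (σ b)) → ℂ, (∀ b, α b ≠ 0) →
        ExpM (Subfield.closure (A : Set ℂ)) D α →
        ∀ V : Set (MvPolynomial ((b : Fin k) × Fin (nn (σ b))) ℂ),
        (∀ G ∈ V, MultiHomS G ∧ G.totalDegree ≤ δ) →
        ∀ r : ℕ, {l | nq q k + r + Tq q k * l ∈ retM (fun b => lf e (c b)) α V}.encard ≤ K ∨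
          ∀ l, nq q k + r + Tq q k * l ∈ retM (fun b => lf e (c b)) α V := by
    intro q k δ σ
    by_cases hq : q ∈ P
    · obtain ⟨hF, hfinal⟩ := (hE q hq).2
      obtain ⟨K, hK⟩ := hfinal k n δ (fun b => nn (σ b)) (fun b => d (σ b)) fun b => hn (σ b)
      exact ⟨K, fun _ c ⟨_, hc⟩ => hK c hc⟩
    · exact ⟨0, fun h => absurd h hq⟩
  choose Kq hKq using hKex
  refine ⟨fun k δ => (∑ q ∈ P, nq q k) + (∏ q ∈ P, Tq q k) *
    ∑ q ∈ P, ∑ σ : Fin k → Fin s, Kq q k δ σ, ?_⟩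
  have hdqd : ∀ q ∈ P, ∀ a, dq q ≤ d a := fun q hq a =>
    (Finset.single_le_sum (fun _ _ => Nat.zero_le _) hq).trans (hd a)
  obtain ⟨B₁, hB₁⟩ := sieve_box (ι := IdxM nn m d) P hPprime
    (fun q => BadM nn m (D ^ 2) q d (E q)) (fun q => 1 / (κ * (q : ℝ)))
    (fun q hq => by
      haveI := Fact.mk (hPprime q hq)
      exact badM_ncard (E q) (hE q hq).1 hκ (hdq q hq inferInstance d (hdqd q hq)))
    (ε / 3) (by linarith)
  obtain ⟨B₂, hB₂⟩ := endo_boxM nn m d e he (ε / 3) (by linarith)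
  refine ⟨max B₁ B₂, fun B hB => ?_⟩
  have h1 := hB₁ B ((le_max_left _ _).trans hB)
  have h2 := hB₂ B ((le_max_right _ _).trans hB)
  set X : Set (IdxM nn m d → ℤ) := {c | (∀ i, |c i| ≤ (B : ℤ)) ∧
    ∀ p ∈ P, (fun i => (c i : ZMod p)) ∈ BadM nn m (D ^ 2) p d (E p)} with hX
  set Y : Set (IdxM nn m d → ℤ) := {c | (∀ i, |c i| ≤ (B : ℤ)) ∧
    ¬ ∀ a, ∀ z : Fin (nn a) → ℂ, (∀ i, eval z (lf e (fun j => c ⟨a, j⟩) i) = 0) → z = 0} with hY
  set Z : Set (IdxM nn m d → ℤ) := {c | (∀ i, |c i| ≤ (B : ℤ)) ∧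
    (∀ a, ∀ z : Fin (nn a) → ℂ, (∀ i, eval z (lf e (fun j => c ⟨a, j⟩) i) = 0) → z = 0) ∧
      DMLC e (Subfield.closure (A : Set ℂ)) D (fun k => ∑ q ∈ P, nq q k)
        (fun k => ∏ q ∈ P, Tq q k) (fun k δ => (∑ q ∈ P, nq q k) + (∏ q ∈ P, Tq q k) *
          ∑ q ∈ P, ∑ σ : Fin k → Fin s, Kq q k δ σ) c} with hZ
  have hfin := box_finite (ι := IdxM nn m d) B
  have hsub : {c : IdxM nn m d → ℤ | ∀ i, |c i| ≤ (B : ℤ)} ⊆ Z ∪ (X ∪ Y) := by
    intro c hc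
    by_cases hcY : c ∈ Y
    · exact Or.inr (Or.inr hcY)
    by_cases hcX : c ∈ X
    · exact Or.inr (Or.inl hcX)
    left
    refine ⟨hc, ?_, ?_⟩
    · by_contra hcon
      exact hcY ⟨hc, hcon⟩
    · have h3 : ∃ q ∈ P, ∃ _ : Fact q.Prime, ∀ a, GoodD (D ^ 2) (lf (E q) fun j => c ⟨a, j⟩) := by
        by_contra hcon
        refine hcX ⟨hc, fun q hq h => ?_⟩
        exact hcon ⟨q, hq, h⟩
      obtain ⟨q, hq, hFq, hgood⟩ := h3
      intro k σ α hα hαL δ V hV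
      have hK := hKq q k δ σ hq (fun b j => c ⟨σ b, j⟩) ⟨hFq, fun b => hgood (σ b)⟩ α hα hαL V hV
      refine isAPU_of_dich _ (hQpos k) fun r => ?_
      refine dich_monoU (n₁ := nq q k) (Q₁ := Tq q k)
        (Finset.single_le_sum (f := fun q => nq q k) (fun _ _ => Nat.zero_le _) hq)
        (hQpos k) (Finset.dvd_prod_of_mem (fun q => Tq q k) hq) (fun r => ?_) r
      rcases hK r with h4 | h4
      · left
        have h5 : Kq q k δ σ ≤ ∑ q ∈ P, ∑ σ : Fin k → Fin s, Kq q k δ σ :=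
          (Finset.single_le_sum (f := fun σ => Kq q k δ σ) (fun _ _ => Nat.zero_le _)
            (Finset.mem_univ σ)).trans
          (Finset.single_le_sum (f := fun q => ∑ σ : Fin k → Fin s, Kq q k δ σ)
            (fun _ _ => Nat.zero_le _) hq)
        have h6 : ((Kq q k δ σ : ℕ) : ℕ∞) ≤
            ((∑ q ∈ P, ∑ σ : Fin k → Fin s, Kq q k δ σ : ℕ) : ℕ∞) := by exact_mod_cast h5
        exact h4.trans h6
      · exact Or.inr h4
  have h3 : ({c : IdxM nn m d → ℤ | ∀ i, |c i| ≤ (B : ℤ)}.ncard : ℝ) ≤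
      (Z.ncard : ℝ) + ((X.ncard : ℝ) + (Y.ncard : ℝ)) := by
    have hfin' : (Z ∪ (X ∪ Y)).Finite := by
      refine hfin.subset ?_
      rintro c (hc | hc | hc)
      · exact hc.1
      · exact hc.1
      · exact hc.1
    have h4 := (Set.ncard_le_ncard hsub hfin').trans ((Set.ncard_union_le _ _).trans
      (Nat.add_le_add_left (Set.ncard_union_le _ _) _))
    exact_mod_cast h4
  rw [box_ncard] at h3
  have h5 : 0 ≤ (2 * (B : ℝ) + 1) ^ Fintype.card (IdxM nn m d) := by positivity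
  have h6 := mul_le_mul_of_nonneg_right hprod h5
  rw [add_mul] at h1
  linarith

end

end Pool.Agent.Helper87.LX
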