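import Mathlib
import Pool.Agent.Helper87.LW2.Final
import Pool.Agent.Helper87.LX.Main

/-!
# LX: the final form of the main theorem, in terms of forms
-/

set_option autoImplicit false

namespace Pool.Agent.Helper87.LX

open MvPolynomial Pool.Agent.Helper87.LD Pool.Agent.Helper87.LW Pool.Agent.Helper87.LW2
open Pool.Agent.Helper86.DML (pmap)

noncomputable section

variable {s m : ℕ} {nn d : Fin s → ℕ}

/-- **Final form.** -/
theorem lx_final {s : ℕ} (nn : Fin s → ℕ) (D : ℕ) (hD : 0 < D) (hdens : DensOKM nn (D ^ 2)) (m : ℕ) (e : Fin m → ℂ)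
    (he : e ≠ 0) (A : Finset ℂ) (heA : ∀ j, e j ∈ Subfield.closure (A : Set ℂ)) (ε : ℝ)
    (hε : 0 < ε) :
    ∃ (Q n₀ : ℕ → ℕ) (d₀ : ℕ), (∀ k, 1 ≤ Q k) ∧ ∀ d : Fin s → ℕ, (∀ a, d₀ ≤ d a) →
      ∃ (K : ℕ → ℕ → ℕ) (B₀ : ℕ), ∀ B : ℕ, B₀ ≤ B →
      (boxM nn m d B).Finite ∧ (1 - ε) * ((boxM nn m d B).ncard : ℝ) ≤
        (({F ∈ boxM nn m d B |
          (∀ a, ∀ z : Fin (nn a) → ℂ, (∀ i, eval z (combW e (F a) i) = 0) → z = 0) ∧
          (∀ (k : ℕ) (σ : Fin k → Fin s) (α : (b : Fin k) → Fin (nn (σ b)) → ℂ),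
            (∀ b, α b ≠ 0) → ExpM (Subfield.closure (A : Set ℂ)) D α →
            ∀ (δ : ℕ) (V : Set (MvPolynomial ((b : Fin k) × Fin (nn (σ b))) ℂ)),
              (∀ G ∈ V, MultiHomS G ∧ G.totalDegree ≤ δ) →
              ∃ E T : Finset ℕ, E.card ≤ K k δ ∧ (∀ a ∈ T, a < n₀ k + Q k) ∧
                retM (fun b => combW e (F (σ b))) α V =
                  {x | x ∈ E ∨ ∃ a ∈ T, ∃ j, x = a + Q k * j}) ∧
          ∀ (a : Fin s) (α : Fin (nn a) → ℂ), α ≠ 0 →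
            ExpM (nn := fun _ : Fin 1 => nn a) (Subfield.closure (A : Set ℂ)) D (fun _ => α) →
            (∃ j : ℕ, 1 ≤ j ∧ ∃ t : ℂ, (pmap (combW e (F a)))^[j] α = t • α) →
            ∃ t : ℂ, (pmap (combW e (F a)))^[Q 1] α = t • α}).ncard : ℝ) := by
  obtain ⟨d₀, n₀, Q, hQ, h⟩ := lx_main nn D hD hdens m e he A heA ε hε
  refine ⟨Q, n₀, d₀, hQ, fun d hd => ?_⟩
  obtain ⟨K, B₀, hB₀⟩ := h d hd
  refine ⟨K, B₀, fun B hB => ⟨boxM_finite B, ?_⟩⟩
  have h1 := hB₀ B hB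
  rw [← box_ncard] at h1
  have h2 : (boxM nn m d B).ncard = {c : IdxM nn m d → ℤ | ∀ i, |c i| ≤ (B : ℤ)}.ncard := by
    rw [boxM_eq, Set.ncard_image_of_injective _ famM_injective]
  rw [h2]
  refine h1.trans (Nat.cast_le.2 (Set.ncard_le_ncard_of_injOn famM ?_
    famM_injective.injOn ((boxM_finite B).subset fun F hF => hF.1)))
  rintro c ⟨hc, hE, hD⟩
  have hmain : ∀ (k : ℕ) (σ : Fin k → Fin s) (α : (b : Fin k) → Fin (nn (σ b)) → ℂ),
      (∀ b, α b ≠ 0) → ExpM (Subfield.closure (A : Set ℂ)) D α →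
      ∀ (δ : ℕ) (V : Set (MvPolynomial ((b : Fin k) × Fin (nn (σ b))) ℂ)),
        (∀ G ∈ V, MultiHomS G ∧ G.totalDegree ≤ δ) →
        IsAPU (n₀ k) (Q k) (K k δ) (retM (fun b => combW e (famM c (σ b))) α V) := by
    intro k σ α hα hαD δ V hV
    have h3 : (fun b => combW e (famM c (σ b))) = fun b => lf e fun j => c ⟨σ b, j⟩ :=
      funext fun b => combW_famM e c (σ b)
    rw [h3]
    exact hD k σ α hα hαD δ V hV
  refine ⟨boxM_eq (d := d) B ▸ ⟨c, hc, rfl⟩, ?_, ?_, ?_⟩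
  · intro a z hz
    rw [combW_famM] at hz
    exact hE a z hz
  · intro k σ α hα hαD δ V hV
    exact hmain k σ α hα hαD δ V hV
  · intro a α hα hαD hper
    have h3 := hmain 1 (fun _ => a) (fun _ => α) (fun _ => hα) hαD 1
      (lineM (nn := fun _ => nn a) α) (lineM_hom (nn := fun _ => nn a) α)
    rw [retM_lineM (nn := fun _ => nn a) (fun _ => combW e (famM c a)) (fun _ => α)] at h3
    rw [combW_famM] at h3 hper ⊢
    exact per_of_isAP (d := d a) (fun i => form_isHomogeneous _ i) (hE a) hα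
      (isAP_of_isAPU h3) hper

end

end Pool.Agent.Helper87.LX
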